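import Mathlib

/-!
Counting the integers of an interval which avoid given residue classes modulo the small primes
(helper590).
-/

set_option autoImplicit false

open Finset

namespace Pool.Agent.H590.KS

/-- products of functions of the residues modulo coprime numbers -/
theorem crt_two {m n : ℕ} (hm : m ≠ 0) (hn : n ≠ 0) (h : m.Coprime n) (u v : ℕ → ℝ) :
    ∑ a ∈ range (m * n), u (a % m) * v (a % n) = (∑ b ∈ range m, u b) * ∑ c ∈ range n, v c := by
  rw [sum_mul_sum, ← sum_product']
  refine sum_nbij' (fun a => (a % m, a % n)) (fun x => (Nat.chineseRemainder h x.1 x.2 : ℕ))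
    ?_ ?_ ?_ ?_ ?_
  · intro a _
    rw [mem_product, mem_range, mem_range]
    exact ⟨Nat.mod_lt _ (Nat.pos_of_ne_zero hm), Nat.mod_lt _ (Nat.pos_of_ne_zero hn)⟩
  · intro x _
    rw [mem_range]
    exact Nat.chineseRemainder_lt_mul h x.1 x.2 hm hn
  · intro a ha
    rw [mem_range] at ha
    have h1 := (Nat.chineseRemainder h (a % m) (a % n)).2
    have h2 : (Nat.chineseRemainder h (a % m) (a % n) : ℕ) ≡ a [MOD m * n] := by
      rw [← Nat.modEq_and_modEq_iff_modEq_mul h]
      exact ⟨h1.1.trans (Nat.mod_modEq _ _), h1.2.trans (Nat.mod_modEq _ _)⟩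
    have h3 := Nat.chineseRemainder_lt_mul h (a % m) (a % n) hm hn
    exact Nat.ModEq.eq_of_lt_of_lt h2 h3 ha
  · intro x hx
    rw [mem_product, mem_range, mem_range] at hx
    have h1 := (Nat.chineseRemainder h x.1 x.2).2
    refine Prod.ext ?_ ?_
    · simp only
      rw [h1.1, Nat.mod_eq_of_lt hx.1]
    · simp only
      rw [h1.2, Nat.mod_eq_of_lt hx.2]
  · intro a _
    rfl

/-- the Chinese remainder theorem for finitely many primes -/
theorem crt_prod (Q : Finset ℕ) (hQ : ∀ q ∈ Q, q.Prime) (g : ∀ q : ℕ, ZMod q → ℝ) :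
    ∑ a ∈ range (∏ q ∈ Q, q), ∏ q ∈ Q, g q (a : ZMod q) =
      ∏ q ∈ Q, ∑ b ∈ range q, g q (b : ZMod q) := by
  induction Q using Finset.induction_on with
  | empty => simp
  | insert q Q hq ih =>
    have hqp := hQ q (mem_insert_self _ _)
    have hQ' : ∀ r ∈ Q, r.Prime := fun r hr => hQ r (mem_insert_of_mem hr)
    have hW : (∏ r ∈ Q, r) ≠ 0 := prod_ne_zero_iff.2 fun r hr => (hQ' r hr).ne_zero
    have hc : q.Coprime (∏ r ∈ Q, r) := by
      apply Nat.Coprime.prod_right
      intro r hr
      rw [Nat.coprime_primes hqp (hQ' r hr)]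
      rintro rfl
      exact hq hr
    rw [prod_insert hq, prod_insert hq, ← ih hQ',
      ← crt_two hqp.ne_zero hW hc (fun b => g q (b : ZMod q)) (fun c => ∏ r ∈ Q, g r (c : ZMod r))]
    refine sum_congr rfl fun a _ => ?_
    rw [prod_insert hq]
    congr 1
    · rw [ZMod.natCast_mod]
    · refine prod_congr rfl fun r hr => ?_
      congr 1
      rw [ZMod.natCast_eq_natCast_iff]
      exact ((Nat.mod_modEq a (∏ r ∈ Q, r)).of_dvd (dvd_prod_of_mem _ hr)).symm

/-- the proportion of the classes in `Om` -/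
noncomputable def dl {p : ℕ} (Om : Finset (ZMod p)) : ℝ := (Om.card : ℝ) / p

theorem dl_nonneg {p : ℕ} (Om : Finset (ZMod p)) : 0 ≤ dl Om := by
  unfold dl
  positivity

theorem dl_le {p : ℕ} (hp : p.Prime) (Om : Finset (ZMod p)) : dl Om ≤ 1 := by
  have : Fact p.Prime := ⟨hp⟩
  unfold dl
  have h0 : (0 : ℝ) < p := by exact_mod_cast hp.pos
  rw [div_le_one h0]
  have h1 := card_le_univ Om
  rw [ZMod.card] at h1
  exact_mod_cast h1

open scoped Classical in
/-- the number of the `n` in a full period which avoid all classes -/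
theorem period (Q : Finset ℕ) (hQ : ∀ q ∈ Q, q.Prime) (Om : ∀ q : ℕ, Finset (ZMod q)) :
    (((range (∏ q ∈ Q, q)).filter fun a : ℕ => ∀ q ∈ Q, (a : ZMod q) ∉ Om q).card : ℝ) =
      (∏ q ∈ Q, (q : ℕ) : ℕ) * ∏ q ∈ Q, (1 - dl (Om q)) := by
  have h1 := crt_prod Q hQ (fun q a => if a ∉ Om q then 1 else 0)
  have h2 : ∀ a : ℕ, (∏ q ∈ Q, if (a : ZMod q) ∉ Om q then (1 : ℝ) else 0) =
      if ∀ q ∈ Q, (a : ZMod q) ∉ Om q then 1 else 0 := by
    intro a
    by_cases h : ∀ q ∈ Q, (a : ZMod q) ∉ Om q
    · rw [if_pos h]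
      exact prod_eq_one fun q hq => if_pos (h q hq)
    · rw [if_neg h]
      push Not at h
      obtain ⟨q, hq, h3⟩ := h
      exact prod_eq_zero hq (if_neg (not_not.2 h3))
  simp only [h2] at h1
  rw [← Finset.sum_filter] at h1
  simp only [sum_const, nsmul_eq_mul, mul_one] at h1
  rw [h1, Nat.cast_prod, ← prod_mul_distrib]
  refine prod_congr rfl fun q hq => ?_
  have hqp := hQ q hq
  have : Fact q.Prime := ⟨hqp⟩
  have hq0 : (q : ℝ) ≠ 0 := by exact_mod_cast hqp.ne_zero
  have h3 : ∑ b ∈ range q, (if (b : ZMod q) ∉ Om q then (1 : ℝ) else 0) =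
      ∑ b : ZMod q, if b ∉ Om q then (1 : ℝ) else 0 := by
    refine sum_nbij' (fun b => (b : ZMod q)) ZMod.val ?_ ?_ ?_ ?_ ?_
    · intro b _
      exact mem_univ _
    · intro b _
      rw [mem_range]
      exact ZMod.val_lt b
    · intro b hb
      rw [mem_range] at hb
      exact ZMod.val_cast_of_lt hb
    · intro b _
      exact ZMod.natCast_zmod_val b
    · intro b _
      rfl
  rw [h3, ← Finset.sum_filter]
  simp only [sum_const, nsmul_eq_mul, mul_one]
  have h4 : (univ.filter fun b : ZMod q => b ∉ Om q).card = q - (Om q).card := by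
    rw [show (univ.filter fun b : ZMod q => b ∉ Om q) = (Om q)ᶜ by
      ext b
      simp, card_compl, ZMod.card]
  have h5 : (Om q).card ≤ q := by
    have := card_le_univ (Om q)
    rwa [ZMod.card] at this
  rw [h4, Nat.cast_sub h5]
  unfold dl
  field_simp

open scoped Classical in
/-- the number of the `n ≤ N` which avoid all classes -/
theorem count_nat (Q : Finset ℕ) (hQ : ∀ q ∈ Q, q.Prime) (Om : ∀ q : ℕ, Finset (ZMod q)) (N : ℕ) :
    |(((Ico 1 (1 + N)).filter fun a : ℕ => ∀ q ∈ Q, (a : ZMod q) ∉ Om q).card : ℝ) -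
      N * ∏ q ∈ Q, (1 - dl (Om q))| ≤ (∏ q ∈ Q, q : ℕ) := by
  set W := ∏ q ∈ Q, q with hW
  have hW0 : 0 < W := prod_pos fun q hq => (hQ q hq).pos
  set P : ℕ → Prop := fun a => ∀ q ∈ Q, (a : ZMod q) ∉ Om q with hP
  have hper : Function.Periodic P W := by
    intro a
    apply propext
    have h1 : ∀ q ∈ Q, ((a + W : ℕ) : ZMod q) = (a : ZMod q) := by
      intro q hq
      have h2 : ((W : ℕ) : ZMod q) = 0 := by
        rw [ZMod.natCast_eq_zero_iff]
        exact dvd_prod_of_mem _ hq
      rw [Nat.cast_add, h2, add_zero]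
    constructor
    · intro h q hq
      rw [← h1 q hq]
      exact h q hq
    · intro h q hq
      rw [h1 q hq]
      exact h q hq
  have hfull : ∀ n : ℕ, ((Ico n (n + W)).filter P).card = ((range W).filter P).card := by
    intro n
    rw [Nat.filter_Ico_card_eq_of_periodic n W P hper, Nat.count_eq_card_filter_range]
  have hmul : ∀ t n : ℕ, ((Ico n (n + W * t)).filter P).card = t * ((range W).filter P).card := by
    intro t
    induction t with
    | zero => intro n; simp
    | succ t ih =>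
      intro n
      have h1 : Ico n (n + W * (t + 1)) = Ico n (n + W) ∪ Ico (n + W) (n + W + W * t) := by
        rw [Ico_union_Ico_eq_Ico (by omega) (by omega)]
        congr 1
        ring
      have h2 : Disjoint ((Ico n (n + W)).filter P) ((Ico (n + W) (n + W + W * t)).filter P) := by
        rw [disjoint_left]
        intro a ha hb
        rw [mem_filter, mem_Ico] at ha hb
        omega
      rw [h1, filter_union, card_union_of_disjoint h2, hfull, ih]
      ring
  have hp := period Q hQ Om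
  rw [← hW] at hp
  set c := ((range W).filter P).card with hc
  set D : ℝ := ∏ q ∈ Q, (1 - dl (Om q)) with hD
  have hcW : c ≤ W := by
    refine (card_filter_le _ _).trans ?_
    rw [card_range]
  have hcD : (c : ℝ) = W * D := hp
  have hWr : (0 : ℝ) < W := by exact_mod_cast hW0
  set t := N / W with ht
  have hN : W * t + N % W = N := Nat.div_add_mod N W
  have hNm : N % W < W := Nat.mod_lt _ hW0
  have hlow : t * c ≤ ((Ico 1 (1 + N)).filter P).card := by
    rw [← hmul t 1]
    apply card_le_card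
    apply filter_subset_filter
    apply Ico_subset_Ico le_rfl
    omega
  have hup : ((Ico 1 (1 + N)).filter P).card ≤ (t + 1) * c := by
    rw [← hmul (t + 1) 1]
    apply card_le_card
    apply filter_subset_filter
    apply Ico_subset_Ico le_rfl
    have : W * (t + 1) = W * t + W := by ring
    omega
  have hlow' : (t : ℝ) * c ≤ (((Ico 1 (1 + N)).filter P).card : ℝ) := by exact_mod_cast hlow
  have hup' : (((Ico 1 (1 + N)).filter P).card : ℝ) ≤ ((t : ℝ) + 1) * c := by exact_mod_cast hup
  have hD0 : 0 ≤ D := by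
    have : (0 : ℝ) ≤ c := Nat.cast_nonneg _
    rw [hcD] at this
    exact nonneg_of_mul_nonneg_right this hWr
  have hNr : (W : ℝ) * t + (N % W : ℕ) = N := by exact_mod_cast hN
  have hNmr : ((N % W : ℕ) : ℝ) ≤ W := by exact_mod_cast hNm.le
  have hNm0 : (0 : ℝ) ≤ ((N % W : ℕ) : ℝ) := Nat.cast_nonneg _
  have e1 : (t : ℝ) * c = (N - (N % W : ℕ)) * D := by
    rw [hcD, ← hNr]
    ring
  have e2 : (c : ℝ) ≤ W := by exact_mod_cast hcW
  have e3 : ((N % W : ℕ) : ℝ) * D ≤ W := by
    have : ((N % W : ℕ) : ℝ) * D ≤ W * D := mul_le_mul_of_nonneg_right hNmr hD0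
    linarith
  have e4 : 0 ≤ ((N % W : ℕ) : ℝ) * D := mul_nonneg hNm0 hD0
  rw [abs_le]
  constructor
  · nlinarith
  · nlinarith

open scoped Classical in
/-- the number of the integers of an interval which avoid all classes -/
theorem count_int (Q : Finset ℕ) (hQ : ∀ q ∈ Q, q.Prime) (Om : ∀ q : ℕ, Finset (ZMod q)) (M : ℤ)
    (N : ℕ) :
    |(((Ioc M (M + N)).filter fun a : ℤ => ∀ q ∈ Q, (a : ZMod q) ∉ Om q).card : ℝ) -
      N * ∏ q ∈ Q, (1 - dl (Om q))| ≤ (∏ q ∈ Q, q : ℕ) := by
  set Om' : ∀ q : ℕ, Finset (ZMod q) := fun q => (Om q).image fun v => v - (M : ZMod q) with hOm'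
  have h1 := count_nat Q hQ Om' N
  have h2 : ∀ q : ℕ, dl (Om' q) = dl (Om q) := by
    intro q
    unfold dl
    rw [hOm']
    simp only
    rw [card_image_of_injective _ (sub_left_injective)]
  have h3 : ((Ico 1 (1 + N)).filter fun a : ℕ => ∀ q ∈ Q, (a : ZMod q) ∉ Om' q).card =
      ((Ioc M (M + N)).filter fun a : ℤ => ∀ q ∈ Q, (a : ZMod q) ∉ Om q).card := by
    have key : ∀ (n : ℕ) (q : ℕ), (n : ZMod q) ∉ Om' q ↔ ((M + (n : ℤ) : ℤ) : ZMod q) ∉ Om q := by
      intro n q
      rw [not_iff_not, hOm']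
      simp only [mem_image]
      constructor
      · rintro ⟨v, hv, hvn⟩
        have : ((M + (n : ℤ) : ℤ) : ZMod q) = v := by
          push_cast
          rw [← hvn]
          ring
        rwa [this]
      · intro h
        refine ⟨_, h, ?_⟩
        push_cast
        ring
    refine card_nbij' (fun n => M + (n : ℤ)) (fun a => (a - M).toNat) ?_ ?_ ?_ ?_
    · intro n hn
      rw [mem_coe, mem_filter, mem_Ico] at hn
      rw [mem_coe, mem_filter, mem_Ioc]
      exact ⟨⟨by simp only; omega, by simp only; omega⟩, fun q hq => (key n q).1 (hn.2 q hq)⟩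
    · intro a ha
      rw [mem_coe, mem_filter, mem_Ioc] at ha
      rw [mem_coe, mem_filter, mem_Ico]
      refine ⟨⟨by simp only; omega, by simp only; omega⟩, fun q hq => (key _ q).2 ?_⟩
      have e : M + ((a - M).toNat : ℤ) = a := by omega
      rw [e]
      exact ha.2 q hq
    · intro n _
      simp
    · intro a ha
      rw [mem_coe, mem_filter, mem_Ioc] at ha
      simp only
      omega
  rw [h3] at h1
  simp only [h2] at h1
  exact h1

end Pool.Agent.H590.KS
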