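import Pool.Agent.H590.KS.Sieve

/-!
The least prime which hits an integer (helper590).
-/

set_option autoImplicit false

open Finset Filter Topology

namespace Pool.Agent.H590.KS

/-- the primes up to `n` -/
def prs (n : ℕ) : Finset ℕ := (range (n + 1)).filter Nat.Prime

theorem mem_prs {n p : ℕ} : p ∈ prs n ↔ p ≤ n ∧ p.Prime := by
  unfold prs
  rw [mem_filter, mem_range, Nat.lt_succ_iff]

theorem card_prs (n : ℕ) : (prs n).card = Nat.primeCounting n := by
  rw [prs, Nat.primeCounting, Nat.primeCounting', Nat.count_eq_card_filter_range]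

/-- the prime `p` hits the integer `a` -/
def Hit (Om : ∀ p : ℕ, Finset (ZMod p)) (a : ℤ) (p : ℕ) : Prop := p.Prime ∧ (a : ZMod p) ∈ Om p

/-- the least prime which hits `a`, or `Y` -/
noncomputable def first (Om : ∀ p : ℕ, Finset (ZMod p)) (Y : ℕ) (a : ℤ) : ℕ :=
  sInf {n | n = Y ∨ Hit Om a n}

theorem first_le (Om : ∀ p : ℕ, Finset (ZMod p)) (Y : ℕ) (a : ℤ) : first Om Y a ≤ Y :=
  Nat.sInf_le (Or.inl rfl)

theorem lt_first {Om : ∀ p : ℕ, Finset (ZMod p)} {Y : ℕ} {a : ℤ} {n : ℕ} :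
    n < first Om Y a ↔ n < Y ∧ ∀ p, p ≤ n → ¬ Hit Om a p := by
  constructor
  · intro h
    refine ⟨lt_of_lt_of_le h (first_le Om Y a), fun p hp hh => ?_⟩
    have : first Om Y a ≤ p := Nat.sInf_le (Or.inr hh)
    omega
  · rintro ⟨h1, h2⟩
    by_contra hcon
    have h3 : first Om Y a ∈ {n | n = Y ∨ Hit Om a n} := Nat.sInf_mem ⟨Y, Or.inl rfl⟩
    rcases h3 with h3 | h3
    · omega
    · exact h2 _ (by omega) h3

/-- the product of the proportions of the classes which are not hit -/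
noncomputable def PP (Om : ∀ p : ℕ, Finset (ZMod p)) (n : ℕ) : ℝ := ∏ p ∈ prs n, (1 - dl (Om p))

open scoped Classical in
/-- the number of the integers of an interval which are not hit by a prime up to `n` -/
noncomputable def UU (Om : ∀ p : ℕ, Finset (ZMod p)) (M : ℤ) (N n : ℕ) : ℕ :=
  ((Ioc M (M + N)).filter fun a : ℤ => ∀ p, p ≤ n → ¬ Hit Om a p).card

theorem UU_le (Om : ∀ p : ℕ, Finset (ZMod p)) (M : ℤ) (N n : ℕ) : UU Om M N n ≤ N := by
  classical
  unfold UU
  refine (card_filter_le _ _).trans ?_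
  rw [Int.card_Ioc]
  omega

theorem UU_anti (Om : ∀ p : ℕ, Finset (ZMod p)) (M : ℤ) (N : ℕ) {m n : ℕ} (h : m ≤ n) :
    UU Om M N n ≤ UU Om M N m := by
  classical
  unfold UU
  apply card_le_card
  intro a ha
  rw [mem_filter] at ha ⊢
  exact ⟨ha.1, fun p hp => ha.2 p (hp.trans h)⟩

theorem UU_near (Om : ∀ p : ℕ, Finset (ZMod p)) (M : ℤ) (N n : ℕ) :
    |(UU Om M N n : ℝ) - N * PP Om n| ≤ 4 ^ n := by
  classical
  have h1 := count_int (prs n) (fun q hq => (mem_prs.1 hq).2) Om M N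
  have h2 : UU Om M N n =
      ((Ioc M (M + N)).filter fun a : ℤ => ∀ q ∈ prs n, (a : ZMod q) ∉ Om q).card := by
    unfold UU
    congr 1
    apply filter_congr
    intro a _
    constructor
    · intro h q hq hmem
      exact h q (mem_prs.1 hq).1 ⟨(mem_prs.1 hq).2, hmem⟩
    · intro h q hq hh
      exact h q (mem_prs.2 ⟨hq, hh.1⟩) hh.2
  rw [h2]
  refine h1.trans ?_
  have h3 : (∏ q ∈ prs n, q) = primorial n := rfl
  rw [h3]
  exact_mod_cast primorial_le_four_pow n

/-- the weights -/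
noncomputable def wt (k n : ℕ) : ℝ := ((n : ℝ) + 1) ^ k - (n : ℝ) ^ k

theorem wt_nonneg (k n : ℕ) : 0 ≤ wt k n := by
  unfold wt
  have : (n : ℝ) ^ k ≤ ((n : ℝ) + 1) ^ k := pow_le_pow_left₀ (Nat.cast_nonneg _) (by linarith) k
  linarith

theorem wt_le (k n : ℕ) : wt k n ≤ ((n : ℝ) + 1) ^ k := by
  unfold wt
  have : 0 ≤ (n : ℝ) ^ k := by positivity
  linarith

theorem sum_wt {k : ℕ} (hk : 1 ≤ k) (m : ℕ) : ∑ n ∈ range m, wt k n = (m : ℝ) ^ k := by
  have h := Finset.sum_range_sub (fun n : ℕ => (n : ℝ) ^ k) m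
  have h0 : ((0 : ℕ) : ℝ) ^ k = 0 := by
    rw [Nat.cast_zero, zero_pow (by omega)]
  rw [h0, sub_zero] at h
  rw [← h]
  refine sum_congr rfl fun n _ => ?_
  unfold wt
  push_cast
  ring

theorem sum_first {k : ℕ} (hk : 1 ≤ k) (Om : ∀ p : ℕ, Finset (ZMod p)) (M : ℤ) (N Y : ℕ) :
    ∑ a ∈ Ioc M (M + N), (first Om Y a : ℝ) ^ k = ∑ n ∈ range Y, wt k n * UU Om M N n := by
  classical
  have h1 : ∀ a ∈ Ioc M (M + (N : ℤ)), (first Om Y a : ℝ) ^ k =
      ∑ n ∈ range Y, wt k n * (if ∀ p, p ≤ n → ¬ Hit Om a p then 1 else 0) := by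
    intro a _
    rw [← sum_wt hk]
    have h2 : range (first Om Y a) = (range Y).filter fun n => ∀ p, p ≤ n → ¬ Hit Om a p := by
      ext n
      rw [mem_range, mem_filter, mem_range, lt_first]
    rw [h2, sum_filter]
    refine sum_congr rfl fun n _ => ?_
    split_ifs <;> simp
  rw [sum_congr rfl h1, sum_comm]
  refine sum_congr rfl fun n _ => ?_
  rw [← mul_sum]
  congr 1
  unfold UU
  rw [card_filter]
  push_cast
  rfl

/-- the moments of the least hitting prime in the probabilistic model -/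
noncomputable def mom (Om : ∀ p : ℕ, Finset (ZMod p)) (k : ℕ) : ℝ :=
  ∑' p : ℕ, if p.Prime then (p : ℝ) ^ k * (dl (Om p) *
    ∏ q ∈ (range p).filter Nat.Prime, (1 - dl (Om q))) else 0

theorem PP_nonneg (Om : ∀ p : ℕ, Finset (ZMod p)) (n : ℕ) : 0 ≤ PP Om n := by
  unfold PP
  refine prod_nonneg fun p hp => ?_
  have := dl_le (mem_prs.1 hp).2 (Om p)
  linarith

theorem PP_le_one (Om : ∀ p : ℕ, Finset (ZMod p)) (n : ℕ) : PP Om n ≤ 1 := by
  unfold PP
  refine prod_le_one (fun p hp => ?_) fun p hp => ?_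
  · have := dl_le (mem_prs.1 hp).2 (Om p)
    linarith
  · have := dl_nonneg (Om p)
    linarith

/-- the term of the series -/
noncomputable def tm (Om : ∀ p : ℕ, Finset (ZMod p)) (k : ℕ) (p : ℕ) : ℝ :=
  if p.Prime then (p : ℝ) ^ k * (dl (Om p) *
    ∏ q ∈ (range p).filter Nat.Prime, (1 - dl (Om q))) else 0

theorem tm_nonneg (Om : ∀ p : ℕ, Finset (ZMod p)) (k : ℕ) (p : ℕ) : 0 ≤ tm Om k p := by
  unfold tm
  split_ifs with h
  · refine mul_nonneg (by positivity) (mul_nonneg (dl_nonneg _) (prod_nonneg fun q hq => ?_))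
    have := dl_le (mem_filter.1 hq).2 (Om q)
    linarith
  · exact le_rfl

theorem tm_succ (Om : ∀ p : ℕ, Finset (ZMod p)) (k m : ℕ) :
    tm Om k (m + 1) = ((m : ℝ) + 1) ^ k * (PP Om m - PP Om (m + 1)) := by
  unfold tm
  have h1 : (range (m + 1)).filter Nat.Prime = prs m := rfl
  by_cases h : (m + 1).Prime
  · rw [if_pos h, h1]
    have h2 : prs (m + 1) = insert (m + 1) (prs m) := by
      ext p
      rw [mem_prs, mem_insert, mem_prs]
      constructor
      · rintro ⟨h3, h4⟩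
        rcases Nat.lt_or_ge m p with h5 | h5
        · exact Or.inl (by omega)
        · exact Or.inr ⟨h5, h4⟩
      · rintro (rfl | h3)
        · exact ⟨le_rfl, h⟩
        · exact ⟨by omega, h3.2⟩
    have h3 : (m + 1) ∉ prs m := by
      rw [mem_prs]
      omega
    unfold PP
    rw [h2, prod_insert h3]
    push_cast
    ring
  · rw [if_neg h]
    have h2 : prs (m + 1) = prs m := by
      ext p
      rw [mem_prs, mem_prs]
      constructor
      · rintro ⟨h3, h4⟩
        refine ⟨?_, h4⟩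
        rcases Nat.lt_or_ge m p with h5 | h5
        · exfalso
          have : p = m + 1 := by omega
          rw [this] at h4
          exact h h4
        · exact h5
      · rintro ⟨h3, h4⟩
        exact ⟨by omega, h4⟩
    unfold PP
    rw [h2, sub_self, mul_zero]

theorem partial_sum {k : ℕ} (hk : 1 ≤ k) (Om : ∀ p : ℕ, Finset (ZMod p)) (m : ℕ) :
    ∑ p ∈ range (m + 1), tm Om k p =
      ∑ n ∈ range (m + 1), wt k n * PP Om n - ((m : ℝ) + 1) ^ k * PP Om m := by
  induction m with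
  | zero =>
    have h1 : tm Om k 0 = 0 := by
      unfold tm
      rw [if_neg Nat.not_prime_zero]
    have h2 : wt k 0 = 1 := by
      unfold wt
      simp [show k ≠ 0 by omega]
    simp [h1, h2]
  | succ m ih =>
    rw [sum_range_succ, ih, sum_range_succ (fun n => wt k n * PP Om n) (m + 1), tm_succ]
    unfold wt
    push_cast
    ring

/-- the moments as a sum over all integers -/
theorem mom_hasSum {k : ℕ} (hk : 1 ≤ k) (Om : ∀ p : ℕ, Finset (ZMod p)) {e : ℕ → ℝ}
    (hP : ∀ n, PP Om n ≤ e n) (hs : Summable fun n : ℕ => ((n : ℝ) + 1) ^ k * e n) :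
    HasSum (fun n => wt k n * PP Om n) (mom Om k) := by
  have h1 : ∀ n, wt k n * PP Om n ≤ ((n : ℝ) + 1) ^ k * e n := fun n =>
    mul_le_mul (wt_le k n) (hP n) (PP_nonneg Om n) (by positivity)
  have h2 : Summable fun n => wt k n * PP Om n :=
    Summable.of_nonneg_of_le (fun n => mul_nonneg (wt_nonneg k n) (PP_nonneg Om n)) h1 hs
  have h3 : Tendsto (fun m : ℕ => ((m : ℝ) + 1) ^ k * PP Om m) atTop (𝓝 0) := by
    refine squeeze_zero (fun m => mul_nonneg (by positivity) (PP_nonneg Om m))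
      (fun m => mul_le_mul_of_nonneg_left (hP m) (by positivity)) hs.tendsto_atTop_zero
  have h4 : Tendsto (fun m : ℕ => ∑ p ∈ range (m + 1), tm Om k p) atTop
      (𝓝 (∑' n, wt k n * PP Om n)) := by
    have h5 := (h2.hasSum.tendsto_sum_nat.comp (tendsto_add_atTop_nat 1)).sub h3
    rw [sub_zero] at h5
    refine h5.congr fun m => ?_
    rw [partial_sum hk]
    rfl
  have h5 : HasSum (tm Om k) (∑' n, wt k n * PP Om n) := by
    rw [hasSum_iff_tendsto_nat_of_nonneg (tm_nonneg Om k)]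
    exact (tendsto_add_atTop_iff_nat 1).1 h4
  have h6 : mom Om k = ∑' n, wt k n * PP Om n := h5.tsum_eq
  rw [h6]
  exact h2.hasSum

end Pool.Agent.H590.KS
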