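import Pool.Agent.H590.KS.Mean
import Pool.Graph.R_seed8.TH375.KL.Core

/-!
Kloosterman sums: they are not zero, and the proportion of the classes with a given sign
(helper590).
-/

set_option autoImplicit false

open Finset Filter Topology

namespace Pool.Agent.H590.KS

open Pool.Agent.TH375.KL

/-- the Kloosterman sum `S(a, 1; p)` as a function on residue classes -/
noncomputable def klz (p : ℕ) (a : ZMod p) : ℝ :=
  ∑ x ∈ Finset.Ico 1 p, Real.cos (2 * Real.pi *
    (((a * (x : ZMod p) + (x : ZMod p)⁻¹).val : ℕ) : ℝ) / (p : ℝ))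

theorem klz_eq {p : ℕ} [hp : Fact p.Prime] (a : ZMod p) : klz p a = rk p a 1 := by
  unfold klz rk KK Pool.Agent.Helper916.Kl
  rw [Complex.re_sum]
  have h1 : ∀ z : ZMod p, (ZMod.stdAddChar (a * z + 1 * z⁻¹) : ℂ).re =
      Real.cos (2 * Real.pi * (((a * z + z⁻¹).val : ℕ) : ℝ) / (p : ℝ)) := by
    intro z
    rw [one_mul, ZMod.stdAddChar_apply, ZMod.toCircle_apply]
    have h2 : (2 * (Real.pi : ℂ) * Complex.I * ((a * z + z⁻¹).val : ℂ) / (p : ℂ)) =
        ((2 * Real.pi * (((a * z + z⁻¹).val : ℕ) : ℝ) / (p : ℝ) : ℝ) : ℂ) * Complex.I := by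
      push_cast
      ring
    rw [h2, Complex.exp_ofReal_mul_I_re]
  rw [Finset.sum_congr rfl fun z _ => h1 z]
  refine Finset.sum_nbij' (fun x => (x : ZMod p)) ZMod.val ?_ ?_ ?_ ?_ ?_
  · intro x hx
    rw [Finset.mem_Ico] at hx
    rw [Finset.mem_erase]
    refine ⟨?_, Finset.mem_univ _⟩
    intro h0
    rw [ZMod.natCast_eq_zero_iff] at h0
    exact absurd (Nat.le_of_dvd hx.1 h0) (not_le.2 hx.2)
  · intro z hz
    rw [Finset.mem_erase] at hz
    rw [Finset.mem_Ico]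
    exact ⟨Nat.pos_of_ne_zero fun h0 => hz.1 ((ZMod.val_eq_zero z).1 h0), ZMod.val_lt z⟩
  · intro x hx
    rw [Finset.mem_Ico] at hx
    exact ZMod.val_cast_of_lt hx.2
  · intro z _
    exact ZMod.natCast_zmod_val z
  · intro x _
    rfl

/-- Kloosterman sums to prime moduli are not zero -/
theorem klz_ne_zero {p : ℕ} [hp : Fact p.Prime] (a : ZMod p) : klz p a ≠ 0 := by
  classical
  intro h0
  rw [klz_eq] at h0
  have h1 : KK p a 1 = 0 := by
    rw [← rk_eq, h0, Complex.ofReal_zero]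
  set ζ : ℂ := Complex.exp (2 * Real.pi * Complex.I / p) with hζ
  have hprim : IsPrimitiveRoot ζ p := Complex.isPrimitiveRoot_exp p hp.out.ne_zero
  set P : Polynomial ℤ := ∑ z ∈ univ.erase (0 : ZMod p), Polynomial.X ^ (a * z + 1 * z⁻¹).val with hP
  have h2 : Polynomial.aeval ζ P = 0 := by
    rw [hP, map_sum, ← h1]
    unfold KK Pool.Agent.Helper916.Kl
    refine sum_congr rfl fun z _ => ?_
    rw [map_pow, Polynomial.aeval_X, ZMod.stdAddChar_apply, ZMod.toCircle_apply, hζ,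
      ← Complex.exp_nat_mul]
    congr 1
    ring
  have h3 : Polynomial.cyclotomic p ℤ ∣ P := by
    rw [Polynomial.cyclotomic_eq_minpoly hprim hp.out.pos]
    exact minpoly.isIntegrallyClosed_dvd (hprim.isIntegral hp.out.pos) h2
  have h4 : Polynomial.eval 1 P = (p : ℤ) - 1 := by
    rw [hP, Polynomial.eval_finsetSum]
    simp only [Polynomial.eval_pow, Polynomial.eval_X, one_pow, sum_const, nsmul_eq_mul, mul_one]
    rw [card_erase_of_mem (mem_univ _), card_univ, ZMod.card, Nat.cast_sub hp.out.one_le]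
    simp
  have h5 := Polynomial.eval_dvd h3 (x := (1 : ℤ))
  rw [Polynomial.eval_one_cyclotomic_prime, h4] at h5
  have h6 : (p : ℤ) ∣ 1 := by
    have := dvd_sub (dvd_refl (p : ℤ)) h5
    simpa using this
  have h7 : p ∣ 1 := by exact_mod_cast h6
  exact hp.out.one_lt.ne' (Nat.dvd_one.1 h7)

open scoped Classical in
/-- the classes with a given sign -/
noncomputable def Sg (σ : ℤ) (η : ℝ) (p : ℕ) : Finset (ZMod p) :=
  if h : p.Prime then
    haveI : Fact p.Prime := ⟨h⟩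
    univ.filter fun v : ZMod p => v ≠ 0 ∧ η * Real.sqrt p < σ * klz p v
  else ∅

theorem mem_Sg {σ : ℤ} {η : ℝ} {p : ℕ} (hp : p.Prime) {v : ZMod p} :
    v ∈ Sg σ η p ↔ v ≠ 0 ∧ η * Real.sqrt p < σ * klz p v := by
  unfold Sg
  rw [dif_pos hp, mem_filter]
  constructor
  · exact fun h => h.2
  · exact fun h => ⟨@mem_univ _ (_) v, h⟩

/-- the proportion of the classes with a given sign -/
theorem dl_Sg {η : ℝ} (hη : 0 ≤ η) (hη1 : η < 1 / 4) : ∃ p₀ : ℕ, ∀ p : ℕ, p.Prime → p₀ ≤ p →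
    ∀ σ : ℤ, (σ = 1 ∨ σ = -1) → (1 / 4 - η) / 2 ≤ dl (Sg σ η p) := by
  have h1 : Tendsto (fun p : ℕ => 1 / Real.sqrt (p : ℝ) + 1 / (p : ℝ)) atTop (𝓝 (0 + 0)) := by
    refine Tendsto.add ?_ ?_
    · exact tendsto_const_nhds.div_atTop (Real.tendsto_sqrt_atTop.comp tendsto_natCast_atTop_atTop)
    · exact tendsto_const_nhds.div_atTop tendsto_natCast_atTop_atTop
  rw [add_zero] at h1
  obtain ⟨p₀, h2⟩ := eventually_atTop.1 ((tendsto_order.1 h1).2 ((1 / 4 - η) / 2) (by linarith))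
  refine ⟨p₀, fun p hp hp0 σ hσ => ?_⟩
  have : Fact p.Prime := ⟨hp⟩
  have h3 := h2 p hp0
  have hp0' : (0 : ℝ) < p := by exact_mod_cast hp.pos
  have hσ2 : ((σ : ℝ)) ^ 2 = 1 := by rcases hσ with h | h <;> rw [h] <;> norm_num
  have h4 := sign_mean (p := p) hσ2 hη
  have h5 : ∑ a : ZMod p, (if η * Real.sqrt p < σ * rk p a 1 then (1 : ℝ) else 0) ≤
      ∑ a : ZMod p, ((if a ∈ Sg σ η p then 1 else 0) + if a = 0 then 1 else 0) := by
    refine Finset.sum_le_sum fun a _ => ?_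
    rw [← klz_eq]
    by_cases ha : a = 0
    · rw [if_pos ha]
      have : (0 : ℝ) ≤ if a ∈ Sg σ η p then 1 else 0 := by split_ifs <;> norm_num
      split_ifs at this ⊢ <;> norm_num
    · rw [if_neg ha, add_zero]
      by_cases h6 : η * Real.sqrt p < σ * klz p a
      · rw [if_pos h6, if_pos ((mem_Sg hp).2 ⟨ha, h6⟩)]
      · rw [if_neg h6]
        split_ifs <;> norm_num
  rw [Finset.sum_add_distrib, Finset.sum_ite_eq'] at h5
  simp only [Finset.mem_univ, if_true] at h5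
  rw [Finset.sum_ite_mem, Finset.univ_inter, Finset.sum_const, nsmul_eq_mul, mul_one] at h5
  unfold dl
  rw [le_div_iff₀ hp0']
  have h6 : (1 / 4 - η) / 2 * (p : ℝ) ≤ (1 / 4 - η - 1 / Real.sqrt p - 1 / p) * p :=
    mul_le_mul_of_nonneg_right (by linarith) hp0'.le
  have h7 : (1 / 4 - η - 1 / Real.sqrt p - 1 / p) * (p : ℝ) =
      (1 / 4 - η - 1 / Real.sqrt p) * p - 1 := by
    field_simp
  rw [h7] at h6
  linarith

end Pool.Agent.H590.KS
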