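import Pool.Agent.H590.KS.First

/-!
The moments of the least prime which hits an integer (helper590).
-/

set_option autoImplicit false

open Finset Filter Topology

namespace Pool.Agent.H590.KS

open Pool.Agent.Y673.LG (pi_ge)

theorem pi_sqrt (n : ℕ) : 1 / 8 * Real.sqrt n - 1 ≤ (Nat.primeCounting n : ℝ) := by
  rcases Nat.lt_or_ge n 20 with h | h
  · have h1 : Real.sqrt n ≤ 8 := by
      rw [Real.sqrt_le_left (by norm_num)]
      have : (n : ℝ) ≤ 20 := by exact_mod_cast h.le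
      linarith
    have h2 : (0 : ℝ) ≤ Nat.primeCounting n := Nat.cast_nonneg _
    linarith
  · have h1 := pi_ge h (s := 1 / 2) (by norm_num)
    have h2 : (n : ℝ) ^ (1 - 1 / 2 : ℝ) = Real.sqrt n := by
      rw [Real.sqrt_eq_rpow]
      norm_num
    rw [h2] at h1
    linarith

/-- the bound for the products -/
theorem PP_bound {h : ℝ} (hh : 0 < h) (hh1 : h < 1) (K p₀ : ℕ) : ∃ B c : ℝ, 0 < B ∧ 0 < c ∧
    ∀ (Om : ∀ p : ℕ, Finset (ZMod p)) (Z : Finset ℕ), Z.card ≤ K →
      (∀ p : ℕ, p.Prime → p₀ ≤ p → p ∉ Z → h ≤ dl (Om p)) →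
      ∀ n : ℕ, PP Om n ≤ B * Real.exp (-c * Real.sqrt n) := by
  classical
  set ρ : ℝ := 1 - h with hρ
  have hρ0 : 0 < ρ := by linarith
  have hρ1 : ρ < 1 := by linarith
  have hl : Real.log ρ < 0 := Real.log_neg hρ0 hρ1
  refine ⟨(ρ ^ (p₀ + K + 1))⁻¹, -Real.log ρ / 8, by positivity, by linarith, ?_⟩
  intro Om Z hZ hOm n
  set G := (prs n).filter fun p => p₀ ≤ p ∧ p ∉ Z with hG
  have h1 : PP Om n ≤ ρ ^ G.card := by
    unfold PP
    calc ∏ p ∈ prs n, (1 - dl (Om p)) ≤ ∏ p ∈ prs n, (if p₀ ≤ p ∧ p ∉ Z then ρ else 1) := by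
          refine prod_le_prod (fun p hp => ?_) fun p hp => ?_
          · have := dl_le (mem_prs.1 hp).2 (Om p)
            linarith
          · split_ifs with h2
            · have := hOm p (mem_prs.1 hp).2 h2.1 h2.2
              linarith
            · have := dl_nonneg (Om p)
              linarith
      _ = ρ ^ G.card := by
          rw [prod_ite, prod_const_one, mul_one, prod_const]
  have h2 : Nat.primeCounting n ≤ G.card + (p₀ + K) := by
    rw [← card_prs]
    have h3 : prs n ⊆ G ∪ (range p₀ ∪ Z) := by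
      intro p hp
      rw [mem_union, mem_union, hG, mem_filter, mem_range]
      by_cases h4 : p < p₀
      · exact Or.inr (Or.inl h4)
      · by_cases h5 : p ∈ Z
        · exact Or.inr (Or.inr h5)
        · exact Or.inl ⟨hp, by omega, h5⟩
    have h4 := card_le_card h3
    have h5 := card_union_le G (range p₀ ∪ Z)
    have h6 := card_union_le (range p₀) Z
    rw [card_range] at h6
    omega
  have h3 : ρ ^ (p₀ + K + 1) * ρ ^ G.card ≤ ρ ^ (Nat.primeCounting n + 1) := by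
    rw [← pow_add]
    exact pow_le_pow_of_le_one hρ0.le hρ1.le (by omega)
  have h4 : ρ ^ (Nat.primeCounting n + 1) ≤ Real.exp (-(-Real.log ρ / 8) * Real.sqrt n) := by
    have h5 : ρ ^ (Nat.primeCounting n + 1) =
        Real.exp (((Nat.primeCounting n : ℝ) + 1) * Real.log ρ) := by
      rw [← Real.exp_log (pow_pos hρ0 _), Real.log_pow]
      push_cast
      rfl
    rw [h5]
    apply Real.exp_le_exp.2
    have h6 := pi_sqrt n
    nlinarith
  have h5 : 0 < ρ ^ (p₀ + K + 1) := by positivity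
  rw [inv_mul_eq_div, le_div_iff₀ h5, mul_comm]
  exact (mul_le_mul_of_nonneg_left h1 h5.le).trans (h3.trans h4)

theorem pow_exp_sqrt {c : ℝ} (hc : 0 < c) (s : ℝ) :
    Tendsto (fun x : ℝ => x ^ s * Real.exp (-c * Real.sqrt x)) atTop (𝓝 0) := by
  have h1 := (tendsto_rpow_mul_exp_neg_mul_atTop_nhds_zero (2 * s) c hc).comp
    Real.tendsto_sqrt_atTop
  refine h1.congr' ?_
  filter_upwards [eventually_ge_atTop (0 : ℝ)] with x hx
  simp only [Function.comp]
  congr 1
  rw [Real.sqrt_eq_rpow, ← Real.rpow_mul hx]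
  congr 1
  ring

theorem summable_g {c : ℝ} (hc : 0 < c) (B : ℝ) (k : ℕ) :
    Summable fun n : ℕ => ((n : ℝ) + 1) ^ k * (B * Real.exp (-c * Real.sqrt n)) := by
  have h1 : Summable fun n : ℕ => ((n : ℝ) + 1) ^ k * Real.exp (-c * Real.sqrt n) := by
    have h2 : Tendsto (fun x : ℝ => x ^ ((k : ℝ) + 2) * Real.exp (-c * Real.sqrt x)) atTop (𝓝 0) :=
      pow_exp_sqrt hc _
    have h3 := (tendsto_order.1 (h2.comp tendsto_natCast_atTop_atTop)).2 ((1 : ℝ) / 2 ^ k)
      (by positivity)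
    refine Summable.of_norm_bounded_eventually_nat (g := fun n : ℕ => 1 / (n : ℝ) ^ 2) ?_ ?_
    · exact Real.summable_one_div_nat_pow.2 (by norm_num)
    · filter_upwards [h3, eventually_ge_atTop 1] with n h4 h5
      have hn : (1 : ℝ) ≤ n := by exact_mod_cast h5
      have hn0 : (0 : ℝ) < n := by linarith
      have hE := Real.exp_pos (-c * Real.sqrt (n : ℝ))
      rw [Real.norm_eq_abs, abs_of_nonneg (by positivity)]
      simp only [Function.comp] at h4
      have e1 : (n : ℝ) ^ ((k : ℝ) + 2) = (n : ℝ) ^ k * (n : ℝ) ^ 2 := by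
        rw [Real.rpow_add hn0, Real.rpow_natCast]
        norm_num
      rw [e1] at h4
      have e2 : ((n : ℝ) + 1) ^ k ≤ 2 ^ k * (n : ℝ) ^ k := by
        rw [← mul_pow]
        exact pow_le_pow_left₀ (by linarith) (by linarith) k
      rw [le_div_iff₀ (by positivity)]
      rw [lt_div_iff₀ (by positivity)] at h4
      calc ((n : ℝ) + 1) ^ k * Real.exp (-c * Real.sqrt n) * (n : ℝ) ^ 2
          ≤ (2 ^ k * (n : ℝ) ^ k) * Real.exp (-c * Real.sqrt n) * (n : ℝ) ^ 2 := by gcongr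
        _ = (n : ℝ) ^ k * (n : ℝ) ^ 2 * Real.exp (-c * Real.sqrt n) * 2 ^ k := by ring
        _ ≤ 1 := h4.le
  refine (h1.mul_left B).congr fun n => ?_
  ring

/-- the error terms -/
theorem errors {c B C₀ γ α : ℝ} (hc : 0 < c) (hγ : 0 < γ) (k w : ℕ) :
    Tendsto (fun L : ℝ => (w : ℝ) ^ k * 4 ^ w * Real.exp (-L) + L ^ (k : ℝ) * Real.exp (-(1 / 2) * L) +
      2 ^ k * (B * (L ^ (α * k) * Real.exp (-(c / 2) * Real.sqrt L)) +
        L ^ (α * k) * Real.exp (-(1 / 2) * L)) + C₀ * Real.exp (-(γ / 2) * L)) atTop (𝓝 0) := by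
  have h1 : Tendsto (fun L : ℝ => (w : ℝ) ^ k * 4 ^ w * Real.exp (-L)) atTop (𝓝 0) := by
    have := (Real.tendsto_exp_neg_atTop_nhds_zero).const_mul ((w : ℝ) ^ k * 4 ^ w)
    rwa [mul_zero] at this
  have h2 : Tendsto (fun L : ℝ => L ^ (k : ℝ) * Real.exp (-(1 / 2) * L)) atTop (𝓝 0) :=
    tendsto_rpow_mul_exp_neg_mul_atTop_nhds_zero _ _ (by norm_num)
  have h3 : Tendsto (fun L : ℝ => B * (L ^ (α * k) * Real.exp (-(c / 2) * Real.sqrt L))) atTop
      (𝓝 0) := by
    have := (pow_exp_sqrt (c := c / 2) (by linarith) (α * k)).const_mul B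
    rwa [mul_zero] at this
  have h4 : Tendsto (fun L : ℝ => L ^ (α * k) * Real.exp (-(1 / 2) * L)) atTop (𝓝 0) :=
    tendsto_rpow_mul_exp_neg_mul_atTop_nhds_zero _ _ (by norm_num)
  have h5 : Tendsto (fun L : ℝ => C₀ * Real.exp (-(γ / 2) * L)) atTop (𝓝 0) := by
    have h6 := (tendsto_rpow_mul_exp_neg_mul_atTop_nhds_zero 0 (γ / 2) (by linarith)).const_mul C₀
    rw [mul_zero] at h6
    refine h6.congr fun L => ?_
    rw [Real.rpow_zero, one_mul]
  have h6 := (h3.add h4).const_mul ((2 : ℝ) ^ k)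
  rw [add_zero, mul_zero] at h6
  have h7 := ((h1.add h2).add h6).add h5
  simpa using h7

/-- **the moments** -/
theorem moments {h : ℝ} (hh : 0 < h) (hh1 : h < 1) {k : ℕ} (hk : 1 ≤ k) {θ : ℝ}
    (hθ : θ * k < 1 / 2) (K p₀ : ℕ) {ε : ℝ} (hε : 0 < ε) :
    ∃ N₀ Y₀ : ℕ, 1 ≤ N₀ ∧ ∀ N Y : ℕ, N₀ ≤ N → Y₀ ≤ Y → (Y : ℝ) ≤ (N : ℝ) ^ θ →
      ∀ (M : ℤ) (Om : ∀ p : ℕ, Finset (ZMod p)) (Z : Finset ℕ), Z.card ≤ K →
        (∀ p : ℕ, p.Prime → p₀ ≤ p → p ∉ Z → h ≤ dl (Om p)) →
        |(∑ a ∈ Ioc M (M + N), (first Om Y a : ℝ) ^ k) / N - mom Om k| ≤ ε := by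
  classical
  obtain ⟨B, c, hB, hc, hPP⟩ := PP_bound hh hh1 K p₀
  set γ : ℝ := 1 / 2 - θ * k with hγ
  have hγ0 : 0 < γ := by linarith
  set α : ℝ := 1 + 2 / γ with hα
  have hα1 : 1 < α := by
    have : 0 < 2 / γ := by positivity
    linarith
  have hα2 : 1 / (2 * α) ≤ γ / 4 := by
    rw [div_le_div_iff₀ (by linarith) (by norm_num)]
    have : γ * α = γ + 2 := by
      rw [hα]
      field_simp
    nlinarith
  obtain ⟨C₀, hC₀, hfew⟩ := few hα1 (show 0 < γ / 4 by linarith) hh K p₀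
  set g : ℕ → ℝ := fun n => ((n : ℝ) + 1) ^ k * (B * Real.exp (-c * Real.sqrt n)) with hg
  have hgs : Summable g := summable_g hc B k
  have hg0 : ∀ n, 0 ≤ g n := fun n => by
    rw [hg]
    positivity
  obtain ⟨w, hw⟩ := ((tendsto_order.1 (tendsto_sum_nat_add g)).2 (ε / 3) (by linarith)).exists
  have herr := (errors (c := c) (B := B) (C₀ := C₀) (γ := γ) (α := α) hc hγ0 k w).comp
    (Real.tendsto_log_atTop.comp tendsto_natCast_atTop_atTop)
  have hev := ((tendsto_order.1 herr).2 (ε / 3) (by linarith)).and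
    ((Real.tendsto_log_atTop.comp tendsto_natCast_atTop_atTop).eventually_ge_atTop (12 : ℝ))
  obtain ⟨N₁, hN₁⟩ := eventually_atTop.1 hev
  refine ⟨max N₁ 1, w, le_max_right _ _, fun N Y hN hY hYN M Om Z hZ hOm => ?_⟩
  obtain ⟨hE, hL12⟩ := hN₁ N (le_trans (le_max_left _ _) hN)
  have hN1 : 1 ≤ N := le_trans (le_max_right _ _) hN
  have hNr : (1 : ℝ) ≤ N := by exact_mod_cast hN1
  have hN0 : (0 : ℝ) < N := by linarith
  simp only [Function.comp] at hE hL12
  set L := Real.log N with hL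
  have hNL : (N : ℝ) = Real.exp L := by rw [hL, Real.exp_log hN0]
  have hP := hPP Om Z hZ hOm
  have hmom := mom_hasSum hk Om hP hgs
  set T := ⌊L / 3⌋₊ with hT
  set Λ := ⌈L ^ α⌉₊ with hΛ
  have hT1 : (T : ℝ) ≤ L / 3 := Nat.floor_le (by linarith)
  have hT2 : L / 3 - 1 ≤ T := by
    have := Nat.lt_floor_add_one (L / 3)
    rw [← hT] at this
    linarith
  have hΛ1 : L ^ α ≤ Λ := Nat.le_ceil _
  have hLα : 1 ≤ L ^ α := Real.one_le_rpow (by linarith) (by linarith)
  have hΛ2 : (Λ : ℝ) ≤ 2 * L ^ α := by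
    have := Nat.ceil_lt_add_one (show 0 ≤ L ^ α by linarith)
    rw [← hΛ] at this
    linarith
  -- the bound for `U n`
  have h4 : ∀ n : ℕ, n ≤ T → (4 : ℝ) ^ n ≤ Real.exp (L / 2) := by
    intro n hn
    have h5 : (4 : ℝ) ^ n ≤ (4 : ℝ) ^ T := pow_le_pow_right₀ (by norm_num) hn
    have h6 : (4 : ℝ) ^ T = Real.exp (T * Real.log 4) := by
      rw [← Real.log_pow, Real.exp_log (by positivity)]
    have h7 : Real.log 4 ≤ 1.4 := by
      have : Real.log 4 = 2 * Real.log 2 := by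
        rw [show (4 : ℝ) = 2 ^ 2 by norm_num, Real.log_pow]
        norm_num
      rw [this]
      have := Real.log_two_lt_d9
      linarith
    have h8 : 0 ≤ Real.log 4 := Real.log_nonneg (by norm_num)
    rw [h6] at h5
    refine h5.trans (Real.exp_le_exp.2 ?_)
    have h9 : (T : ℝ) * Real.log 4 ≤ L / 3 * 1.4 := mul_le_mul hT1 h7 h8 (by linarith)
    linarith
  have hU1 : ∀ n : ℕ, n ≤ T → (UU Om M N n : ℝ) ≤
      N * (B * Real.exp (-c * Real.sqrt n) + Real.exp (-(1 / 2) * L)) := by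
    intro n hn
    have h5 := (abs_le.1 (UU_near Om M N n)).2
    have h6 := h4 n hn
    have h7 : Real.exp (L / 2) = N * Real.exp (-(1 / 2) * L) := by
      rw [hNL, ← Real.exp_add]
      congr 1
      ring
    have h8 := hP n
    have h9 : (N : ℝ) * PP Om n ≤ N * (B * Real.exp (-c * Real.sqrt n)) :=
      mul_le_mul_of_nonneg_left h8 hN0.le
    rw [mul_add]
    linarith
  have hUT : (UU Om M N T : ℝ) ≤
      N * (B * Real.exp (-(c / 2) * Real.sqrt L) + Real.exp (-(1 / 2) * L)) := by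
    refine (hU1 T le_rfl).trans ?_
    apply mul_le_mul_of_nonneg_left _ hN0.le
    have h5 : Real.exp (-c * Real.sqrt T) ≤ Real.exp (-(c / 2) * Real.sqrt L) := by
      apply Real.exp_le_exp.2
      have h6 : Real.sqrt (L / 4) ≤ Real.sqrt T := Real.sqrt_le_sqrt (by linarith)
      have h7 : Real.sqrt (L / 4) = Real.sqrt L / 2 := by
        rw [Real.sqrt_div (by linarith), show (4 : ℝ) = 2 ^ 2 by norm_num,
          Real.sqrt_sq (by norm_num)]
      rw [h7] at h6
      nlinarith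
    have h6 := mul_le_mul_of_nonneg_left h5 hB.le
    linarith
  have hUΛ : (UU Om M N Λ : ℝ) ≤ C₀ * (N : ℝ) ^ (1 / 2 + 1 / (2 * α) + γ / 4) := by
    unfold UU
    apply hfew N hN1 M Om Z
    · have h5 : (Z.card : ℝ) ≤ K := by exact_mod_cast hZ
      have h6 : (0 : ℝ) ≤ K := Nat.cast_nonneg _
      rw [← hL]
      nlinarith
    · intro p hp hp0 _ hpZ
      exact hOm p hp hp0 hpZ
    · intro a ha
      rw [mem_filter, mem_Ioc] at ha
      refine ⟨ha.1, fun p hp hpL hmem => ha.2 p ?_ ⟨hp, hmem⟩⟩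
      rw [← hL] at hpL
      have : (p : ℝ) ≤ Λ := hpL.trans hΛ1
      exact_mod_cast this
  -- the three sums
  have hsum := sum_first hk Om M N Y
  have hsplit : ∑ n ∈ range Y, wt k n * UU Om M N n =
      ∑ n ∈ range w, wt k n * UU Om M N n + ∑ n ∈ Ico w Y, wt k n * UU Om M N n := by
    rw [Finset.sum_range_add_sum_Ico _ hY]
  have hs1 : |(∑ n ∈ range w, wt k n * UU Om M N n) / N - ∑ n ∈ range w, wt k n * PP Om n| ≤
      (w : ℝ) ^ k * 4 ^ w * Real.exp (-L) := by
    have e1 : (∑ n ∈ range w, wt k n * UU Om M N n) / N - ∑ n ∈ range w, wt k n * PP Om n =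
        ∑ n ∈ range w, wt k n * (((UU Om M N n : ℝ) - N * PP Om n) / N) := by
      rw [sum_div, ← sum_sub_distrib]
      refine sum_congr rfl fun n _ => ?_
      field_simp
    rw [e1]
    refine (abs_sum_le_sum_abs _ _).trans ?_
    rw [← sum_wt hk w, sum_mul, sum_mul]
    refine sum_le_sum fun n hn => ?_
    rw [mem_range] at hn
    rw [abs_mul, abs_of_nonneg (wt_nonneg k n), mul_assoc]
    apply mul_le_mul_of_nonneg_left _ (wt_nonneg k n)
    rw [abs_div, abs_of_pos hN0]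
    have e2 : Real.exp (-L) = 1 / N := by
      rw [Real.exp_neg, ← hNL, one_div]
    rw [e2, mul_one_div]
    apply div_le_div_of_nonneg_right _ hN0.le
    exact (UU_near Om M N n).trans (pow_le_pow_right₀ (by norm_num) hn.le)
  have hs3 : |∑ n ∈ range w, wt k n * PP Om n - mom Om k| ≤ ∑' n, g (n + w) := by
    have e1 := hmom.summable.sum_add_tsum_nat_add w
    rw [hmom.tsum_eq] at e1
    have hgw : Summable fun n => g (n + w) := (summable_nat_add_iff w).2 hgs
    have e2 : ∀ n, wt k (n + w) * PP Om (n + w) ≤ g (n + w) := fun n =>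
      mul_le_mul (wt_le k _) (hP _) (PP_nonneg Om _) (by positivity)
    have e3 : Summable fun n => wt k (n + w) * PP Om (n + w) := (summable_nat_add_iff w).2 hmom.summable
    have e4 : ∑' n, wt k (n + w) * PP Om (n + w) ≤ ∑' n, g (n + w) := e3.tsum_le_tsum e2 hgw
    have e5 : 0 ≤ ∑' n, wt k (n + w) * PP Om (n + w) :=
      tsum_nonneg fun n => mul_nonneg (wt_nonneg k _) (PP_nonneg Om _)
    rw [← e1]
    rw [abs_le]
    constructor <;> linarith
  have hs2 : (∑ n ∈ Ico w Y, wt k n * UU Om M N n) / N ≤ (∑' n, g (n + w)) +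
      (L ^ (k : ℝ) * Real.exp (-(1 / 2) * L) +
      2 ^ k * (B * (L ^ (α * k) * Real.exp (-(c / 2) * Real.sqrt L)) +
        L ^ (α * k) * Real.exp (-(1 / 2) * L)) + C₀ * Real.exp (-(γ / 2) * L)) := by
    have hL0 : 0 < L := by linarith
    have e1 : ∀ n ∈ Ico w Y, wt k n * UU Om M N n ≤ N * g n +
        ((if n < T then wt k n * (N * Real.exp (-(1 / 2) * L)) else 0) +
        (if n < Λ then wt k n * UU Om M N T else 0) + wt k n * UU Om M N Λ) := by
      intro n _
      have hw0 := wt_nonneg k n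
      have hwU : 0 ≤ wt k n * (UU Om M N T : ℝ) := mul_nonneg hw0 (Nat.cast_nonneg _)
      have hwL : 0 ≤ wt k n * (UU Om M N Λ : ℝ) := mul_nonneg hw0 (Nat.cast_nonneg _)
      have hgn := hg0 n
      have hNg : 0 ≤ N * g n := mul_nonneg hN0.le hgn
      by_cases h5 : n < T
      · rw [if_pos h5]
        have e2 := mul_le_mul_of_nonneg_left (hU1 n h5.le) hw0
        have e3 : wt k n * (N * (B * Real.exp (-c * Real.sqrt n))) ≤ N * g n := by
          have e4 : wt k n * (N * (B * Real.exp (-c * Real.sqrt n))) =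
              N * (wt k n * (B * Real.exp (-c * Real.sqrt n))) := by ring
          rw [e4]
          apply mul_le_mul_of_nonneg_left _ hN0.le
          rw [hg]
          exact mul_le_mul_of_nonneg_right (wt_le k n) (by positivity)
        have e4 : wt k n * (N * (B * Real.exp (-c * Real.sqrt n) + Real.exp (-(1 / 2) * L))) =
            wt k n * (N * (B * Real.exp (-c * Real.sqrt n))) +
            wt k n * (N * Real.exp (-(1 / 2) * L)) := by ring
        rw [e4] at e2
        split_ifs <;> linarith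
      · rw [if_neg h5]
        by_cases h6 : n < Λ
        · rw [if_pos h6]
          have e2 : (UU Om M N n : ℝ) ≤ UU Om M N T := by
            exact_mod_cast UU_anti Om M N (not_lt.1 h5)
          have e3 := mul_le_mul_of_nonneg_left e2 hw0
          linarith
        · rw [if_neg h6]
          have e2 : (UU Om M N n : ℝ) ≤ UU Om M N Λ := by
            exact_mod_cast UU_anti Om M N (not_lt.1 h6)
          have e3 := mul_le_mul_of_nonneg_left e2 hw0
          linarith
    have e5 := sum_le_sum e1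
    rw [sum_add_distrib, sum_add_distrib, sum_add_distrib] at e5
    have f1 : ∑ n ∈ Ico w Y, N * g n ≤ N * ∑' n, g (n + w) := by
      rw [← mul_sum]
      apply mul_le_mul_of_nonneg_left _ hN0.le
      have hgw : Summable fun n => g (n + w) := (summable_nat_add_iff w).2 hgs
      rw [Finset.sum_Ico_eq_sum_range]
      refine le_trans (le_of_eq ?_) (hgw.sum_le_tsum (range (Y - w)) fun n _ => hg0 _)
      exact sum_congr rfl fun n _ => by rw [add_comm]
    have sub1 : ∀ (D : ℕ) (u : ℝ), 0 ≤ u →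
        ∑ n ∈ Ico w Y, (if n < D then wt k n * u else 0) ≤ (D : ℝ) ^ k * u := by
      intro D u hu
      rw [← sum_filter, ← sum_wt hk D, sum_mul]
      apply sum_le_sum_of_subset_of_nonneg
      · intro n hn
        rw [mem_filter] at hn
        exact mem_range.2 hn.2
      · intro n _ _
        exact mul_nonneg (wt_nonneg k n) hu
    have f2 := sub1 T (N * Real.exp (-(1 / 2) * L)) (by positivity)
    have f3 := sub1 Λ (UU Om M N T) (Nat.cast_nonneg _)
    have f4 : ∑ n ∈ Ico w Y, wt k n * (UU Om M N Λ : ℝ) ≤ (Y : ℝ) ^ k * UU Om M N Λ := by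
      rw [← sum_mul, ← sum_wt hk Y]
      apply mul_le_mul_of_nonneg_right _ (Nat.cast_nonneg _)
      apply sum_le_sum_of_subset_of_nonneg
      · intro n hn
        rw [mem_Ico] at hn
        exact mem_range.2 hn.2
      · intro n _ _
        exact wt_nonneg k n
    have g2 : (T : ℝ) ^ k * (N * Real.exp (-(1 / 2) * L)) ≤
        N * (L ^ (k : ℝ) * Real.exp (-(1 / 2) * L)) := by
      have : (T : ℝ) ^ k ≤ L ^ k := pow_le_pow_left₀ (Nat.cast_nonneg _) (by linarith) k
      rw [Real.rpow_natCast]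
      calc (T : ℝ) ^ k * (N * Real.exp (-(1 / 2) * L)) ≤ L ^ k * (N * Real.exp (-(1 / 2) * L)) :=
            mul_le_mul_of_nonneg_right this (by positivity)
        _ = N * (L ^ k * Real.exp (-(1 / 2) * L)) := by ring
    have g3 : (Λ : ℝ) ^ k * UU Om M N T ≤
        N * (2 ^ k * (B * (L ^ (α * k) * Real.exp (-(c / 2) * Real.sqrt L)) +
        L ^ (α * k) * Real.exp (-(1 / 2) * L))) := by
      have i1 : (Λ : ℝ) ^ k ≤ 2 ^ k * L ^ (α * k) := by
        rw [Real.rpow_mul hL0.le, Real.rpow_natCast, ← mul_pow]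
        exact pow_le_pow_left₀ (Nat.cast_nonneg _) hΛ2 k
      calc (Λ : ℝ) ^ k * UU Om M N T ≤ (2 ^ k * L ^ (α * k)) *
            (N * (B * Real.exp (-(c / 2) * Real.sqrt L) + Real.exp (-(1 / 2) * L))) :=
            mul_le_mul i1 hUT (Nat.cast_nonneg _) (by positivity)
        _ = _ := by ring
    have g4 : (Y : ℝ) ^ k * UU Om M N Λ ≤ N * (C₀ * Real.exp (-(γ / 2) * L)) := by
      have i1 : (Y : ℝ) ^ k ≤ (N : ℝ) ^ (θ * k) := by
        rw [Real.rpow_mul hN0.le, Real.rpow_natCast]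
        exact pow_le_pow_left₀ (Nat.cast_nonneg _) hYN k
      have i2 : (N : ℝ) ^ (θ * k) * (N : ℝ) ^ (1 / 2 + 1 / (2 * α) + γ / 4) ≤
          N * Real.exp (-(γ / 2) * L) := by
        rw [← Real.rpow_add hN0]
        have i3 : (N : ℝ) * Real.exp (-(γ / 2) * L) = (N : ℝ) ^ (1 - γ / 2) := by
          rw [Real.rpow_def_of_pos hN0, ← hL]
          nth_rewrite 1 [hNL]
          rw [← Real.exp_add]
          congr 1
          ring
        rw [i3]
        apply Real.rpow_le_rpow_of_exponent_le hNr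
        linarith
      calc (Y : ℝ) ^ k * UU Om M N Λ ≤ (N : ℝ) ^ (θ * k) *
            (C₀ * (N : ℝ) ^ (1 / 2 + 1 / (2 * α) + γ / 4)) :=
            mul_le_mul i1 hUΛ (Nat.cast_nonneg _) (by positivity)
        _ = C₀ * ((N : ℝ) ^ (θ * k) * (N : ℝ) ^ (1 / 2 + 1 / (2 * α) + γ / 4)) := by ring
        _ ≤ C₀ * (N * Real.exp (-(γ / 2) * L)) := mul_le_mul_of_nonneg_left i2 hC₀.le
        _ = _ := by ring
    rw [div_le_iff₀ hN0]
    refine e5.trans ?_
    have i5 : ((∑' n, g (n + w)) +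
      (L ^ (k : ℝ) * Real.exp (-(1 / 2) * L) +
      2 ^ k * (B * (L ^ (α * k) * Real.exp (-(c / 2) * Real.sqrt L)) +
        L ^ (α * k) * Real.exp (-(1 / 2) * L)) + C₀ * Real.exp (-(γ / 2) * L))) * N =
      N * (∑' n, g (n + w)) + N * (L ^ (k : ℝ) * Real.exp (-(1 / 2) * L)) +
      N * (2 ^ k * (B * (L ^ (α * k) * Real.exp (-(c / 2) * Real.sqrt L)) +
        L ^ (α * k) * Real.exp (-(1 / 2) * L))) + N * (C₀ * Real.exp (-(γ / 2) * L)) := by ring
    rw [i5]
    linarith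
  have hs20 : 0 ≤ (∑ n ∈ Ico w Y, wt k n * UU Om M N n) / N :=
    div_nonneg (sum_nonneg fun n _ => mul_nonneg (wt_nonneg k n) (Nat.cast_nonneg _)) hN0.le
  rw [hsum, hsplit, add_div]
  rw [abs_le] at hs1 hs3 ⊢
  constructor
  · have hz : 0 ≤ ∑' n, g (n + w) := tsum_nonneg fun n => hg0 _
    have hLk : 0 ≤ L ^ (k : ℝ) * Real.exp (-(1 / 2) * L) := by positivity
    have hLk2 : 0 ≤ 2 ^ k * (B * (L ^ (α * k) * Real.exp (-(c / 2) * Real.sqrt L)) +
        L ^ (α * k) * Real.exp (-(1 / 2) * L)) := by positivity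
    have hLk3 : 0 ≤ C₀ * Real.exp (-(γ / 2) * L) := by positivity
    linarith [hs1.1, hs3.1]
  · linarith [hs1.2, hs3.2]

/-- the moments are bounded -/
theorem mom_le {h : ℝ} (hh : 0 < h) (hh1 : h < 1) {k : ℕ} (hk : 1 ≤ k) (K p₀ : ℕ) :
    ∃ C : ℝ, ∀ (Om : ∀ p : ℕ, Finset (ZMod p)) (Z : Finset ℕ), Z.card ≤ K →
      (∀ p : ℕ, p.Prime → p₀ ≤ p → p ∉ Z → h ≤ dl (Om p)) → mom Om k ≤ C := by
  obtain ⟨B, c, hB, hc, hPP⟩ := PP_bound hh hh1 K p₀
  have hgs := summable_g hc B k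
  refine ⟨∑' n : ℕ, ((n : ℝ) + 1) ^ k * (B * Real.exp (-c * Real.sqrt n)), ?_⟩
  intro Om Z hZ hOm
  have hP := hPP Om Z hZ hOm
  have hmom := mom_hasSum hk Om hP hgs
  rw [← hmom.tsum_eq]
  exact hmom.summable.tsum_le_tsum (fun n => mul_le_mul (wt_le k _) (hP _) (PP_nonneg Om _)
    (by positivity)) hgs

end Pool.Agent.H590.KS
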