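import Pool.Agent.H590.KS.Crt
import Pool.Graph.R_pool_sql_team_seeded_1acbe0a2.Y673.LG.Fl

/-!
The large sieve with the primes up to a power of the logarithm (helper590).
-/

set_option autoImplicit false

open Finset

namespace Pool.Agent.H590.KS

open Pool.Agent.Y673.LG (sieve exists_blocks asy pi_large growG pi_ge)

/-- the sieve for an interval of integers -/
theorem sieve_int {N k y m : ℕ} (hy : 1 ≤ y) {h : ℝ} (hh : 0 ≤ h) (P : Finset ℕ)
    (hP : ∀ p ∈ P, p.Prime ∧ p ≤ y) (hcard : k * m ≤ P.card) (M : ℤ) (S : Finset ℤ)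
    (hS : ∀ a ∈ S, M < a ∧ a ≤ M + N) (Om : ∀ p : ℕ, Finset (ZMod p))
    (hO : ∀ p ∈ P, h ≤ dl (Om p) ∧ ∀ a ∈ S, (a : ZMod p) ∉ Om p) :
    (m * h) ^ k * S.card ≤ 6 * ((N : ℝ) + (y ^ k) ^ 2) := by
  classical
  obtain ⟨Bl, hBl, hd⟩ := exists_blocks m k P hcard
  set f : ℤ → ℕ := fun a => (a - M).toNat with hf
  have hfc : ∀ a ∈ S, ((f a : ℕ) : ℤ) = a - M := by
    intro a ha
    have := hS a ha
    rw [hf]
    simp only
    omega
  have hinj : Set.InjOn f S := by
    intro a ha b hb hab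
    have h1 := hfc a ha
    have h2 := hfc b hb
    have h3 : ((f a : ℕ) : ℤ) = ((f b : ℕ) : ℤ) := by rw [hab]
    omega
  have hc : (S.image f).card = S.card := card_image_of_injOn hinj
  have hsub : S.image f ⊆ Icc 1 N := by
    intro n hn
    obtain ⟨a, ha, rfl⟩ := mem_image.1 hn
    have h1 := hfc a ha
    have h2 := hS a ha
    rw [mem_Icc]
    constructor <;> omega
  have h1 := sieve (N := N) (k := k) (y := y) (m := m) hy hh Bl
    (fun i => (hBl i).2.ge) (fun i p hp => hP p ((hBl i).1 hp)) hd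
    (S.image f) hsub (by
      intro i p hp
      obtain ⟨h2, h3⟩ := hO p ((hBl i).1 hp)
      refine ⟨(Om p).image fun v => v - (M : ZMod p), ?_, ?_⟩
      · rw [card_image_of_injective _ (sub_left_injective)]
        exact h2
      · intro n hn hmem
        obtain ⟨a, ha, rfl⟩ := mem_image.1 hn
        obtain ⟨v, hv, hva⟩ := mem_image.1 hmem
        apply h3 a ha
        have h4 : ((f a : ℕ) : ZMod p) = (a : ZMod p) - (M : ZMod p) := by
          have h5 : (((f a : ℕ) : ℤ) : ZMod p) = ((a - M : ℤ) : ZMod p) := by rw [hfc a ha]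
          push_cast at h5
          exact h5
        rw [h4] at hva
        have h6 : v = (a : ZMod p) := sub_left_injective hva
        rwa [← h6])
  rw [hc] at h1
  exact h1

/-- **few integers avoid the classes modulo all the primes up to a power of the logarithm** -/
theorem few_large {α ε h : ℝ} (hα : 1 < α) (hε : 0 < ε) (hh : 0 < h) (κ p₀ : ℕ) :
    ∃ X₀ : ℝ, 1 ≤ X₀ ∧ ∀ N : ℕ, X₀ ≤ N → ∀ (M : ℤ) (Om : ∀ p : ℕ, Finset (ZMod p)) (Z : Finset ℕ),
      (Z.card : ℝ) ≤ κ * (1 + Real.log N) →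
      (∀ p : ℕ, p.Prime → p₀ ≤ p → (p : ℝ) ≤ Real.log N ^ α → p ∉ Z → h ≤ dl (Om p)) →
      ∀ S : Finset ℤ, (∀ a ∈ S, (M < a ∧ a ≤ M + N) ∧
        ∀ p : ℕ, p.Prime → (p : ℝ) ≤ Real.log N ^ α → (a : ZMod p) ∉ Om p) →
      (S.card : ℝ) ≤ 12 * (N : ℝ) ^ (1 / 2 + 1 / (2 * α) + ε) := by
  set η : ℝ := min (α - 1) (ε / 3) with hη
  have hη0 : 0 < η := lt_min (by linarith) (by linarith)
  have hη1 : η ≤ α - 1 := min_le_left _ _
  have hη2 : η ≤ ε / 3 := min_le_right _ _
  have hα0 : 0 < α := by linarith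
  set s : ℝ := η / (2 * α) with hs
  have hs0 : 0 < s := by positivity
  have hs1 : s < 1 := by
    rw [hs, div_lt_one (by positivity)]
    linarith
  have hsα : α * s = η / 2 := by
    rw [hs]
    field_simp
  set K : ℝ := 1 / h + 1 + p₀ + 2 * κ with hK
  have hK0 : 0 ≤ K := by positivity
  obtain ⟨L₀, hL₀, hL⟩ := asy (α := α) (η := η) (ε := ε) (R := 8 * K / s) hα hη0 hε
  refine ⟨Real.exp L₀, Real.one_le_exp (by linarith), ?_⟩
  intro N hN M Om Z hZ hOm S hS
  set X : ℝ := (N : ℝ) with hXdef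
  have hX0 : 0 < X := lt_of_lt_of_le (Real.exp_pos _) hN
  set L := Real.log X with hLdef
  have hXL : X = Real.exp L := by rw [hLdef, Real.exp_log hX0]
  have hLL : L₀ ≤ L := by
    rw [hLdef, ← Real.log_exp L₀]
    exact Real.log_le_log (Real.exp_pos _) hN
  have hL4 : 4 ≤ L := hL₀.trans hLL
  have hLpos : 0 < L := by linarith
  have hX1 : 1 ≤ X := by rw [hXL]; exact Real.one_le_exp hLpos.le
  obtain ⟨g1, g2, g3⟩ := hL L hLL
  set y := ⌊L ^ α⌋₊ with hy
  have hyL : (y : ℝ) ≤ L ^ α := Nat.floor_le (by positivity)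
  have hyL' : L ^ α < y + 1 := Nat.lt_floor_add_one _
  have hy40 : 40 ≤ y := Nat.le_floor (by exact_mod_cast g1)
  have hyr : (40 : ℝ) ≤ y := by exact_mod_cast hy40
  have hy0 : (0 : ℝ) < y := by linarith
  have hpi2 := pi_large (K := K) hL4 hs0 hs1 hsα g1 hyL' hy40 hK0 g2
  set G : ℝ := L ^ (α - 1 - η) with hG
  have hG1 : 1 ≤ G := Real.one_le_rpow (by linarith) (by linarith)
  set m := ⌈G / h⌉₊ with hm
  have hm1 : G / h ≤ m := Nat.le_ceil _
  have hm2 : (m : ℝ) < G / h + 1 := Nat.ceil_lt_add_one (by positivity)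
  have hly : 1 / 2 ≤ Real.log y := by
    rw [Real.le_log_iff_exp_le hy0]
    have h1 : Real.exp (1 / 2) ≤ Real.exp 1 := Real.exp_le_exp.2 (by norm_num)
    have h2 := Real.exp_one_lt_d9
    linarith
  set k := ⌊1 / 2 * L / Real.log y⌋₊ with hk
  have hly0 : 0 < Real.log y := by linarith
  have hk1 : (k : ℝ) * Real.log y ≤ 1 / 2 * L := by
    have := Nat.floor_le (show 0 ≤ 1 / 2 * L / Real.log y by positivity)
    rw [← hk, le_div_iff₀ hly0] at this
    exact this
  have hk2 : 1 / 2 * L < (k + 1) * Real.log y := by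
    have := Nat.lt_floor_add_one (1 / 2 * L / Real.log y)
    rw [← hk, div_lt_iff₀ hly0] at this
    exact this
  have hk0 : (0 : ℝ) ≤ k := Nat.cast_nonneg _
  have hk3 : (k : ℝ) ≤ L := by nlinarith
  -- the primes
  classical
  set Q := (range (y + 1)).filter Nat.Prime with hQ
  have hQc : Q.card = Nat.primeCounting y := by
    rw [hQ, Nat.primeCounting, Nat.primeCounting', Nat.count_eq_card_filter_range]
  set P : Finset ℕ := (Q \ Z) \ range p₀ with hP
  have hPc : (Nat.primeCounting y : ℝ) ≤ P.card + (κ * (1 + L) + p₀) := by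
    have h1 : Q.card ≤ (Q \ Z).card + Z.card := by
      have := card_le_card (show Q ⊆ (Q \ Z) ∪ Z by
        intro x hx
        rw [mem_union, mem_sdiff]
        tauto)
      exact this.trans (card_union_le _ _)
    have h2 : (Q \ Z).card ≤ P.card + p₀ := by
      have := card_le_card (show Q \ Z ⊆ P ∪ range p₀ by
        intro x hx
        rw [hP, mem_union, mem_sdiff]
        tauto)
      refine this.trans ((card_union_le _ _).trans ?_)
      rw [card_range]
    rw [hQc] at h1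
    have h3 : Nat.primeCounting y ≤ P.card + p₀ + Z.card := by omega
    have h4 : (Nat.primeCounting y : ℝ) ≤ P.card + p₀ + Z.card := by exact_mod_cast h3
    linarith
  have hGL : L ≤ G * L := by nlinarith
  have hκ0 : (0 : ℝ) ≤ κ := Nat.cast_nonneg _
  have hp₀ : (0 : ℝ) ≤ p₀ := Nat.cast_nonneg _
  have hkm : k * m ≤ P.card := by
    have h1 : (k : ℝ) * m ≤ P.card := by
      have h2 : (k : ℝ) * m ≤ L * (G / h + 1) := by
        have hm0 : (0 : ℝ) ≤ m := Nat.cast_nonneg _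
        calc (k : ℝ) * m ≤ L * m := mul_le_mul_of_nonneg_right hk3 hm0
          _ ≤ L * (G / h + 1) := mul_le_mul_of_nonneg_left hm2.le hLpos.le
      have h3 : K * (G * L) = 1 / h * (G * L) + G * L + p₀ * (G * L) + 2 * (κ * (G * L)) := by
        rw [hK]
        ring
      have h4 : L * (G / h + 1) = 1 / h * (G * L) + L := by ring
      have h5 : (κ : ℝ) * L ≤ κ * (G * L) := mul_le_mul_of_nonneg_left hGL hκ0
      have h6 : (κ : ℝ) * 1 ≤ κ * (G * L) :=
        mul_le_mul_of_nonneg_left (by linarith) hκ0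
      have h7 : (p₀ : ℝ) * 1 ≤ p₀ * (G * L) :=
        mul_le_mul_of_nonneg_left (by linarith) hp₀
      rw [h3] at hpi2
      linarith
    exact_mod_cast h1
  have hcount := sieve_int (N := N) (k := k) (m := m) (y := y) (by omega) hh.le P (by
      intro p hp
      rw [hP, mem_sdiff, mem_sdiff, hQ, mem_filter, mem_range] at hp
      exact ⟨hp.1.1.2, by omega⟩) hkm M S (fun a ha => (hS a ha).1) Om (by
      intro p hp
      rw [hP, mem_sdiff, mem_sdiff, hQ, mem_filter, mem_range, mem_range] at hp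
      have hpy : (p : ℝ) ≤ L ^ α := by
        have : (p : ℝ) ≤ y := by exact_mod_cast (show p ≤ y by omega)
        linarith
      exact ⟨hOm p hp.1.1.2 (by omega) hpy hp.1.2, fun a ha => (hS a ha).2 p hp.1.1.2 hpy⟩)
  have hyk : ((y : ℝ) ^ k) ^ 2 ≤ X := by
    have h1 : (y : ℝ) ^ k = Real.exp (k * Real.log y) := by
      rw [← Real.log_pow, Real.exp_log (by positivity)]
    rw [h1, hXL, ← Real.exp_nat_mul]
    apply Real.exp_le_exp.2
    push_cast
    linarith
  have hGk := growG hα hη0 hη1 hη2 hL4 hy0 hly0 hyL hk2 g3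
  rw [← hG] at hGk
  have hGm : G ^ k ≤ ((m : ℝ) * h) ^ k := by
    apply pow_le_pow_left₀ (by positivity)
    rwa [div_le_iff₀ hh] at hm1
  have hc2 : G ^ k * S.card ≤ 12 * X := by
    refine (mul_le_mul_of_nonneg_right hGm (Nat.cast_nonneg _)).trans (hcount.trans ?_)
    linarith
  have hc3 : Real.exp ((1 / 2 * (1 - 1 / α) - ε) * L) * S.card ≤ 12 * X :=
    (mul_le_mul_of_nonneg_right hGk (Nat.cast_nonneg _)).trans hc2
  have hfin : X ^ (1 / 2 + 1 / (2 * α) + ε) * Real.exp ((1 / 2 * (1 - 1 / α) - ε) * L) = X := by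
    rw [Real.rpow_def_of_pos hX0, ← hLdef, ← Real.exp_add]
    conv_rhs => rw [hXL]
    congr 1
    field_simp
    ring
  have hpos := Real.exp_pos ((1 / 2 * (1 - 1 / α) - ε) * L)
  have hfin2 : (S.card : ℝ) * Real.exp ((1 / 2 * (1 - 1 / α) - ε) * L) ≤
      12 * X ^ (1 / 2 + 1 / (2 * α) + ε) * Real.exp ((1 / 2 * (1 - 1 / α) - ε) * L) := by
    rw [mul_assoc 12, hfin, mul_comm]
    exact hc3
  exact le_of_mul_le_mul_right hfin2 hpos

/-- the same for all `N` -/
theorem few {α ε h : ℝ} (hα : 1 < α) (hε : 0 < ε) (hh : 0 < h) (κ p₀ : ℕ) :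
    ∃ C : ℝ, 0 < C ∧ ∀ N : ℕ, 1 ≤ N → ∀ (M : ℤ) (Om : ∀ p : ℕ, Finset (ZMod p)) (Z : Finset ℕ),
      (Z.card : ℝ) ≤ κ * (1 + Real.log N) →
      (∀ p : ℕ, p.Prime → p₀ ≤ p → (p : ℝ) ≤ Real.log N ^ α → p ∉ Z → h ≤ dl (Om p)) →
      ∀ S : Finset ℤ, (∀ a ∈ S, (M < a ∧ a ≤ M + N) ∧
        ∀ p : ℕ, p.Prime → (p : ℝ) ≤ Real.log N ^ α → (a : ZMod p) ∉ Om p) →
      (S.card : ℝ) ≤ C * (N : ℝ) ^ (1 / 2 + 1 / (2 * α) + ε) := by
  obtain ⟨X₀, hX₀, h1⟩ := few_large hα hε hh κ p₀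
  refine ⟨12 + X₀, by linarith, fun N hN M Om Z hZ hOm S hS => ?_⟩
  have hNr : (1 : ℝ) ≤ N := by exact_mod_cast hN
  have hα0 : 0 < α := by linarith
  have hexp : 0 ≤ 1 / 2 + 1 / (2 * α) + ε := by positivity
  have hN1 : 1 ≤ (N : ℝ) ^ (1 / 2 + 1 / (2 * α) + ε) := Real.one_le_rpow hNr hexp
  rcases lt_or_ge (N : ℝ) X₀ with hlt | hge
  · have h2 : S.card ≤ N := by
      have h3 : S ⊆ Ioc M (M + N) := fun a ha => mem_Ioc.2 (hS a ha).1
      have h4 := card_le_card h3
      rw [Int.card_Ioc] at h4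
      have h5 : (M + (N : ℤ) - M).toNat = N := by omega
      rwa [h5] at h4
    have h3 : (S.card : ℝ) ≤ N := by exact_mod_cast h2
    nlinarith
  · have h2 := h1 N hge M Om Z hZ hOm S hS
    nlinarith

end Pool.Agent.H590.KS
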